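import Mathlib
import Pool.Agent.H602R3.DHJ.Main

set_option autoImplicit false

/-!
# The IP Szemeredi theorem of Furstenberg and Katznelson in finite abelian groups

From the density Hales-Jewett theorem `Pool.Agent.H602R3.DHJ.dhj`.
-/

namespace Pool.Agent.V11270.HP

open Finset
open Pool.Agent.H602R3.DHJ

/-- sums along a line -/
theorem sum_line {M : Type} [AddCommMonoid M] {k N : ℕ} (V : Fin N → Fin (k + 1) ⊕ Unit)
    (g : Fin N → Fin (k + 1) → M) :
    ∃ s : M, ∀ a, ∑ i, g i (ap V (fun _ => a) i) =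
      ∑ i ∈ univ.filter (fun i => V i = Sum.inr ()), g i a + s := by
  classical
  refine ⟨∑ i ∈ univ.filter (fun i => ¬ V i = Sum.inr ()), g i (ap V (fun _ => 0) i), fun a => ?_⟩
  rw [← sum_filter_add_sum_filter_not univ (fun i => V i = Sum.inr ())]
  congr 1
  · refine sum_congr rfl fun i hi => ?_
    have h := (mem_filter.1 hi).2
    congr 1
    unfold ap
    rw [h]
    rfl
  · refine sum_congr rfl fun i hi => ?_
    have h := (mem_filter.1 hi).2
    congr 1
    unfold ap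
    rcases hV : V i with b | u
    · rfl
    · exact absurd (by rw [hV]) h

/-- **The IP Szemeredi theorem in finite abelian groups.** -/
theorem fk_fin (l : ℕ) (δ : ℝ) (hδ : 0 < δ) : ∃ (r : ℕ) (η : ℝ), 0 < η ∧
    ∀ (Z : Type) [AddCommGroup Z] [Fintype Z] (A : Set Z),
      δ * (Nat.card Z : ℝ) ≤ (A.ncard : ℝ) → ∀ g : Fin r → Fin (l + 1) → Z,
      ∃ I : Finset (Fin r), I.Nonempty ∧
        η * (Nat.card Z : ℝ) ≤ (Set.ncard {x : Z | ∀ j, x + ∑ i ∈ I, g i j ∈ A} : ℝ) := by
  classical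
  obtain ⟨r, hr⟩ := dhj l (δ / 2) (by positivity)
  obtain ⟨T, hT⟩ : ∃ T : ℕ, T = Fintype.card (Fin r → Fin (l + 1) ⊕ Unit) := ⟨_, rfl⟩
  have hT0 : 0 < T := by
    rw [hT]
    exact Fintype.card_pos
  have hT0' : (0 : ℝ) < T := by exact_mod_cast hT0
  refine ⟨r, δ / (2 * T), by positivity, ?_⟩
  intro Z _ _ A hA g
  rw [Nat.card_eq_fintype_card] at hA ⊢
  obtain ⟨c, hc⟩ : ∃ c : ℝ, c = (Fintype.card Z : ℝ) := ⟨_, rfl⟩
  have hc0 : 0 < c := by
    rw [hc]
    exact_mod_cast Fintype.card_pos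
  rw [← hc] at hA ⊢
  obtain ⟨v, hv⟩ : ∃ v : (Fin r → Fin (l + 1)) → Z, v = fun u => ∑ i, g i (u i) := ⟨_, rfl⟩
  obtain ⟨W, hW⟩ : ∃ W : Z → Set (Fin r → Fin (l + 1)), W = fun x => {u | x + v u ∈ A} :=
    ⟨_, rfl⟩
  obtain ⟨n, hn⟩ : ∃ n : ℝ, n = Fintype.card (Fin r → Fin (l + 1)) := ⟨_, rfl⟩
  have hn0 : 0 < n := by
    rw [hn]
    exact_mod_cast Fintype.card_pos
  have hdn : ∀ x, dn (W x) = (∑ u, if x + v u ∈ A then (1 : ℝ) else 0) / n := by
    intro x
    unfold dn av
    rw [hn]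
    congr 1
    refine sum_congr rfl fun u _ => ?_
    rw [Set.indicator_apply]
    rw [hW]
    rfl
  have hdn1 : ∀ x, dn (W x) ≤ 1 := by
    intro x
    rw [hdn, div_le_one hn0, hn]
    calc (∑ u, if x + v u ∈ A then (1 : ℝ) else 0)
        ≤ ∑ _u : Fin r → Fin (l + 1), (1 : ℝ) := sum_le_sum fun u _ => by
          split_ifs <;> norm_num
      _ = _ := by rw [sum_const, card_univ, nsmul_eq_mul, mul_one]
  have hdn0 : ∀ x, 0 ≤ dn (W x) := by
    intro x
    rw [hdn]
    exact div_nonneg (sum_nonneg fun u _ => by split_ifs <;> norm_num) hn0.le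
  have hcount : ∀ y : Z, (∑ x : Z, if x + y ∈ A then (1 : ℝ) else 0) = (A.ncard : ℝ) := by
    intro y
    have h1 : (∑ x : Z, if x + y ∈ A then (1 : ℝ) else 0) = ∑ x : Z, if x ∈ A then (1 : ℝ) else 0 :=
      Fintype.sum_equiv (Equiv.addRight y) _ _ fun x => rfl
    rw [h1, sum_ite, sum_const_zero, add_zero, sum_const, nsmul_eq_mul, mul_one]
    congr 1
    rw [Set.ncard_eq_toFinset_card']
    congr 1
    ext x
    simp
  have hmean : δ * c ≤ ∑ x, dn (W x) := by
    simp_rw [hdn]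
    rw [← sum_div, sum_comm, le_div_iff₀ hn0]
    simp_rw [hcount]
    rw [sum_const, card_univ, nsmul_eq_mul, ← hn]
    calc δ * c * n ≤ (A.ncard : ℝ) * n := mul_le_mul_of_nonneg_right hA hn0.le
      _ = _ := mul_comm _ _
  -- the points with many words
  obtain ⟨G, hG⟩ : ∃ G : Finset Z, G = univ.filter fun x => δ / 2 ≤ dn (W x) := ⟨_, rfl⟩
  have hGc : δ / 2 * c ≤ (G.card : ℝ) := by
    have h1 : ∑ x, dn (W x) ≤ ∑ x : Z, ((if x ∈ G then (1 : ℝ) else 0) + δ / 2) := by
      refine sum_le_sum fun x _ => ?_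
      split_ifs with h0
      · have := hdn1 x
        linarith
      · have h2 : ¬ δ / 2 ≤ dn (W x) := fun h3 => h0 (by rw [hG]; exact mem_filter.2 ⟨mem_univ _, h3⟩)
        push Not at h2
        linarith
    rw [sum_add_distrib, sum_const, card_univ, nsmul_eq_mul, ← hc] at h1
    have h2 : (∑ x : Z, if x ∈ G then (1 : ℝ) else 0) = G.card := by
      rw [← sum_filter, filter_mem_eq_inter, univ_inter, sum_const, nsmul_eq_mul, mul_one]
    rw [h2] at h1
    linarith
  -- the lines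
  have hline : ∀ x ∈ G, ∃ V : Fin r → Fin (l + 1) ⊕ Unit, Pr V ∧ ∀ t, ap V (fun _ => t) ∈ W x := by
    intro x hx
    by_contra hcon
    have h1 : LFr (W x) := by
      unfold LFr
      intro V hV
      by_contra h2
      push Not at h2
      exact hcon ⟨V, hV, fun t => h2 t⟩
    have h2 := hr (W x) h1
    have h3 : δ / 2 ≤ dn (W x) := by
      rw [hG] at hx
      exact (mem_filter.1 hx).2
    linarith
  have hcov : G ⊆ (univ.filter (fun V : Fin r → Fin (l + 1) ⊕ Unit => Pr V)).biUnion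
      (fun V => univ.filter fun x : Z => ∀ t, x + v (ap V (fun _ => t)) ∈ A) := by
    intro x hx
    obtain ⟨V, hV, h1⟩ := hline x hx
    rw [mem_biUnion]
    refine ⟨V, mem_filter.2 ⟨mem_univ _, hV⟩, mem_filter.2 ⟨mem_univ _, fun t => ?_⟩⟩
    have := h1 t
    rw [hW] at this
    exact this
  have hsum : δ / 2 * c ≤ ∑ V ∈ (univ.filter (fun V : Fin r → Fin (l + 1) ⊕ Unit => Pr V)),
      ((univ.filter fun x : Z => ∀ t, x + v (ap V (fun _ => t)) ∈ A).card : ℝ) := by
    refine hGc.trans ?_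
    have h1 := (card_le_card hcov).trans card_biUnion_le
    exact_mod_cast h1
  obtain ⟨V, hV, hVμ⟩ : ∃ V ∈ (univ.filter (fun V : Fin r → Fin (l + 1) ⊕ Unit => Pr V)),
      δ / (2 * T) * c ≤ ((univ.filter fun x : Z => ∀ t, x + v (ap V (fun _ => t)) ∈ A).card : ℝ) := by
    by_contra hcon
    push Not at hcon
    have hδc : 0 < δ * c := by positivity
    rcases (univ.filter (fun V : Fin r → Fin (l + 1) ⊕ Unit => Pr V)).eq_empty_or_nonempty with h0 | h0
    · rw [h0, sum_empty] at hsum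
      linarith
    · have h1 := sum_lt_sum_of_nonempty h0 hcon
      rw [sum_const, nsmul_eq_mul] at h1
      have h2 : ((univ.filter (fun V : Fin r → Fin (l + 1) ⊕ Unit => Pr V)).card : ℝ) ≤ T := by
        rw [hT]
        exact_mod_cast card_le_univ _
      have h3 : ((univ.filter (fun V : Fin r → Fin (l + 1) ⊕ Unit => Pr V)).card : ℝ) *
          (δ / (2 * T) * c) ≤ T * (δ / (2 * T) * c) := mul_le_mul_of_nonneg_right h2 (by positivity)
      have h4 : (T : ℝ) * (δ / (2 * T) * c) = δ / 2 * c := by field_simp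
      linarith
  have hPr : Pr V := (mem_filter.1 hV).2
  obtain ⟨i₀, hi₀⟩ := hPr ()
  refine ⟨univ.filter (fun i => V i = Sum.inr ()), ⟨i₀, mem_filter.2 ⟨mem_univ _, hi₀⟩⟩, ?_⟩
  obtain ⟨s, hs⟩ := sum_line V g
  refine hVμ.trans ?_
  rw [Set.ncard_eq_toFinset_card']
  have h5 : (univ.filter fun x : Z => ∀ t, x + v (ap V (fun _ => t)) ∈ A).card ≤
      (Set.toFinset {x : Z | ∀ j, x + ∑ i ∈ univ.filter (fun i => V i = Sum.inr ()), g i j ∈ A}).card := by
    refine card_le_card_of_injOn (fun x => x + s) ?_ ?_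
    · intro x hx
      have hx' := (mem_filter.1 hx).2
      simp only [Set.coe_toFinset, Set.mem_ofPred_eq]
      intro t
      have h6 := hx' t
      rw [hv] at h6
      simp only at h6
      rw [hs t] at h6
      have h7 : x + s + ∑ i ∈ univ.filter (fun i => V i = Sum.inr ()), g i t =
          x + (∑ i ∈ univ.filter (fun i => V i = Sum.inr ()), g i t + s) := by abel
      rw [h7]
      exact h6
    · intro a _ b _ hab
      exact add_right_cancel hab
  exact_mod_cast h5

end Pool.Agent.V11270.HP
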