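import Mathlib
import Pool.Agent.V11270.HP.FK

set_option autoImplicit false

/-!
# The IP Szemeredi theorem on the real line

From the density Hales-Jewett theorem `Pool.Agent.H602R3.DHJ.dhj`.
-/

namespace Pool.Agent.V11270.HP

open Finset MeasureTheory
open Pool.Agent.H602R3.DHJ

/-- **the IP Szemeredi theorem for subsets of intervals of the real line** -/
theorem real_line (l : ℕ) (δ : ℝ) (hδ : 0 < δ) : ∃ (r : ℕ) (η : ℝ), 0 < η ∧
    ∀ H : ℝ, 0 < H → ∀ (a : ℝ) (A : Set ℝ), MeasurableSet A → A ⊆ Set.Icc a (a + H) →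
      ENNReal.ofReal (δ * H) ≤ volume A → ∀ g : Fin r → Fin l → ℝ, (∀ j, ∑ i, |g i j| ≤ H) →
      ∃ I : Finset (Fin r), I.Nonempty ∧
        ENNReal.ofReal (η * H) ≤ volume {x | x ∈ A ∧ ∀ j, x + ∑ i ∈ I, g i j ∈ A} := by
  classical
  obtain ⟨e, he⟩ : ∃ e : ℝ, e = δ / (2 * (2 * l + 1)) := ⟨_, rfl⟩
  have he0 : 0 < e := by rw [he]; positivity
  obtain ⟨r, hr⟩ := dhj l e he0
  obtain ⟨T, hT⟩ : ∃ T : ℕ, T = Fintype.card (Fin r → Fin (l + 1) ⊕ Unit) := ⟨_, rfl⟩
  have hT0 : 0 < T := by
    rw [hT]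
    exact Fintype.card_pos
  have hT0' : (0 : ℝ) < T := by exact_mod_cast hT0
  refine ⟨r, δ / (4 * T), by positivity, ?_⟩
  intro H hH a A hAm hAs hA g hg
  obtain ⟨g', hg'⟩ : ∃ g' : Fin r → Fin (l + 1) → ℝ, g' = fun i => Fin.cons 0 (g i) := ⟨_, rfl⟩
  obtain ⟨v, hv⟩ : ∃ v : (Fin r → Fin (l + 1)) → ℝ, v = fun u => ∑ i, g' i (u i) := ⟨_, rfl⟩
  have hvb : ∀ u, |v u| ≤ l * H := by
    intro u
    rw [hv]
    refine (abs_sum_le_sum_abs _ _).trans ?_
    have h1 : ∀ i, |g' i (u i)| ≤ ∑ j, |g i j| := by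
      intro i
      rw [hg']
      refine Fin.cases ?_ (fun j => ?_) (u i)
      · simp only [Fin.cons_zero, abs_zero]
        exact sum_nonneg fun j _ => abs_nonneg _
      · simp only [Fin.cons_succ]
        exact single_le_sum (f := fun j => |g i j|) (fun j _ => abs_nonneg _) (mem_univ j)
    refine (sum_le_sum fun i _ => h1 i).trans ?_
    rw [sum_comm]
    refine (sum_le_sum fun j _ => hg j).trans ?_
    rw [sum_const, card_univ, Fintype.card_fin, nsmul_eq_mul]
  obtain ⟨J, hJ⟩ : ∃ J : Set ℝ, J = Set.Icc (a - l * H) (a + (l + 1) * H) := ⟨_, rfl⟩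
  have hJv : volume J = ENNReal.ofReal ((2 * l + 1) * H) := by
    rw [hJ, Real.volume_Icc]
    congr 1
    ring
  obtain ⟨n, hn⟩ : ∃ n : ℝ, n = Fintype.card (Fin r → Fin (l + 1)) := ⟨_, rfl⟩
  have hn0 : 0 < n := by
    rw [hn]
    exact_mod_cast Fintype.card_pos
  obtain ⟨B, hB⟩ : ∃ B : (Fin r → Fin (l + 1)) → Set ℝ, B = fun u => {x | x + v u ∈ A} := ⟨_, rfl⟩
  have hBm : ∀ u, MeasurableSet (B u) := by
    intro u
    rw [hB]
    exact (measurable_add_const (v u)) hAm
  have hBv : ∀ u, volume (B u) = volume A := by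
    intro u
    rw [hB]
    exact measure_preimage_add_right volume (v u) A
  have hBJ : ∀ u, B u ⊆ J := by
    intro u x hx
    rw [hB] at hx
    have h1 := hAs hx
    have h2 := abs_le.1 (hvb u)
    rw [hJ]
    constructor
    · linarith [h1.1]
    · linarith [h1.2]
  obtain ⟨f, hf⟩ : ∃ f : ℝ → ENNReal, f = fun x => ∑ u, (B u).indicator 1 x := ⟨_, rfl⟩
  have hfm : Measurable f := by
    rw [hf]
    exact Finset.measurable_fun_sum _ fun u _ => measurable_one.indicator (hBm u)
  have hfi : ∫⁻ x, f x = ENNReal.ofReal n * volume A := by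
    rw [hf]
    rw [lintegral_finset_sum _ fun u _ => measurable_one.indicator (hBm u)]
    simp_rw [lintegral_indicator_one (hBm _), hBv]
    rw [sum_const, card_univ, nsmul_eq_mul, hn]
    congr 1
    rw [ENNReal.ofReal_natCast]
  have hfn : ∀ x, f x ≤ ENNReal.ofReal n := by
    intro x
    rw [hf]
    simp only
    calc ∑ u, (B u).indicator 1 x ≤ ∑ _u : Fin r → Fin (l + 1), (1 : ENNReal) :=
          sum_le_sum fun u _ => Set.indicator_le_self' (fun _ _ => zero_le_one) x |>.trans le_rfl
      _ = ENNReal.ofReal n := by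
          rw [sum_const, card_univ, nsmul_eq_mul, mul_one, hn, ENNReal.ofReal_natCast]
  obtain ⟨W, hW⟩ : ∃ W : ℝ → Set (Fin r → Fin (l + 1)), W = fun x => {u | x + v u ∈ A} :=
    ⟨_, rfl⟩
  have hfW : ∀ x, f x = ENNReal.ofReal (dn (W x) * n) := by
    intro x
    have h1 : dn (W x) * n = ∑ u, if x + v u ∈ A then (1 : ℝ) else 0 := by
      unfold dn av
      rw [← hn, div_mul_cancel₀ _ hn0.ne']
      refine sum_congr rfl fun u _ => ?_
      rw [Set.indicator_apply, hW]
      rfl
    rw [h1, hf, ENNReal.ofReal_sum_of_nonneg (fun u _ => by split_ifs <;> norm_num)]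
    refine sum_congr rfl fun u _ => ?_
    rw [Set.indicator_apply, hB]
    simp only [Set.mem_ofPred_eq, Pi.one_apply]
    split_ifs <;> simp
  obtain ⟨G, hG⟩ : ∃ G : Set ℝ, G = {x | ENNReal.ofReal (e * n) ≤ f x} := ⟨_, rfl⟩
  have hGm : MeasurableSet G := by
    rw [hG]
    exact measurableSet_le measurable_const hfm
  have hJm : MeasurableSet J := by
    rw [hJ]
    exact measurableSet_Icc
  have hpt : ∀ x, f x ≤ G.indicator (fun _ => ENNReal.ofReal n) x +
      J.indicator (fun _ => ENNReal.ofReal (e * n)) x := by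
    intro x
    by_cases h1 : x ∈ G
    · rw [Set.indicator_of_mem h1]
      exact (hfn x).trans le_self_add
    · by_cases h2 : x ∈ J
      · rw [Set.indicator_of_mem h2]
        rw [hG] at h1
        simp only [Set.mem_ofPred_eq, not_le] at h1
        exact h1.le.trans le_add_self
      · have h3 : f x = 0 := by
          rw [hf]
          simp only
          refine sum_eq_zero fun u _ => Set.indicator_of_notMem (fun h4 => h2 (hBJ u h4)) _
        rw [h3]
        exact zero_le'
  have hint : ENNReal.ofReal n * volume A ≤ ENNReal.ofReal n * volume G +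
      ENNReal.ofReal (e * n) * volume J := by
    rw [← hfi]
    calc ∫⁻ x, f x ≤ ∫⁻ x, (G.indicator (fun _ => ENNReal.ofReal n) x +
        J.indicator (fun _ => ENNReal.ofReal (e * n)) x) := lintegral_mono hpt
      _ = _ := by
        rw [lintegral_add_left (measurable_const.indicator hGm), lintegral_indicator_const hGm,
          lintegral_indicator_const hJm]
  have hGv : ENNReal.ofReal (δ / 2 * H) ≤ volume G := by
    rw [hJv, ← ENNReal.ofReal_mul (by positivity)] at hint
    have h1 : e * n * ((2 * l + 1) * H) = n * (δ / 2 * H) := by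
      rw [he]
      field_simp
    rw [h1, ENNReal.ofReal_mul hn0.le, ← mul_add] at hint
    have h2 : volume A ≤ volume G + ENNReal.ofReal (δ / 2 * H) := by
      have h3 : ENNReal.ofReal n ≠ 0 := by
        rw [Ne, ENNReal.ofReal_eq_zero]
        linarith
      exact (ENNReal.mul_le_mul_iff_right h3 ENNReal.ofReal_ne_top).1 hint
    have h4 : ENNReal.ofReal (δ / 2 * H) + ENNReal.ofReal (δ / 2 * H) ≤
        volume G + ENNReal.ofReal (δ / 2 * H) := by
      rw [← ENNReal.ofReal_add (by positivity) (by positivity)]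
      have h5 : δ / 2 * H + δ / 2 * H = δ * H := by ring
      rw [h5]
      exact hA.trans h2
    exact (ENNReal.add_le_add_iff_right ENNReal.ofReal_ne_top).1 h4
  -- the lines
  obtain ⟨L, hL⟩ : ∃ L : (Fin r → Fin (l + 1) ⊕ Unit) → Set ℝ,
    L = fun V => {x | ∀ t, x + v (ap V (fun _ => t)) ∈ A} := ⟨_, rfl⟩
  have hline : ∀ x ∈ G, ∃ V : Fin r → Fin (l + 1) ⊕ Unit, Pr V ∧ x ∈ L V := by
    intro x hx
    by_contra hcon
    have h1 : LFr (W x) := by
      unfold LFr
      intro V hV
      by_contra h2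
      push Not at h2
      refine hcon ⟨V, hV, ?_⟩
      rw [hL]
      intro t
      have := h2 t
      rw [hW] at this
      exact this
    have h2 := hr (W x) h1
    rw [hG] at hx
    simp only [Set.mem_ofPred_eq] at hx
    rw [hfW] at hx
    have h3 : e * n ≤ dn (W x) * n := by
      by_contra h4
      push Not at h4
      have h5 : ENNReal.ofReal (dn (W x) * n) < ENNReal.ofReal (e * n) :=
        (ENNReal.ofReal_lt_ofReal_iff (by positivity)).2 h4
      exact absurd hx (not_le.2 h5)
    have h6 : e ≤ dn (W x) := le_of_mul_le_mul_right h3 hn0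
    linarith
  have hcov : G ⊆ ⋃ V ∈ (univ.filter (fun V : Fin r → Fin (l + 1) ⊕ Unit => Pr V)), L V := by
    intro x hx
    obtain ⟨V, hV, h1⟩ := hline x hx
    rw [Set.mem_iUnion₂]
    exact ⟨V, mem_filter.2 ⟨mem_univ _, hV⟩, h1⟩
  obtain ⟨V, hV, hVμ⟩ : ∃ V ∈ (univ.filter (fun V : Fin r → Fin (l + 1) ⊕ Unit => Pr V)),
      ENNReal.ofReal (δ / (4 * T) * H) ≤ volume (L V) := by
    by_contra hcon
    push Not at hcon
    have h1 : volume G ≤ ENNReal.ofReal (δ / 4 * H) := by
      refine (measure_mono hcov).trans ((measure_biUnion_finset_le _ _).trans ?_)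
      refine (sum_le_sum fun V hV => (hcon V hV).le).trans ?_
      rw [sum_const, nsmul_eq_mul, ← ENNReal.ofReal_natCast, ← ENNReal.ofReal_mul (by positivity)]
      refine ENNReal.ofReal_le_ofReal ?_
      have h2 : ((univ.filter (fun V : Fin r → Fin (l + 1) ⊕ Unit => Pr V)).card : ℝ) ≤ T := by
        rw [hT]
        exact_mod_cast card_le_univ _
      have h3 : ((univ.filter (fun V : Fin r → Fin (l + 1) ⊕ Unit => Pr V)).card : ℝ) *
          (δ / (4 * T) * H) ≤ T * (δ / (4 * T) * H) := mul_le_mul_of_nonneg_right h2 (by positivity)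
      have h4 : (T : ℝ) * (δ / (4 * T) * H) = δ / 4 * H := by field_simp
      linarith
    have h5 := hGv.trans h1
    rw [ENNReal.ofReal_le_ofReal_iff (by positivity)] at h5
    have h6 : 0 < δ * H := by positivity
    nlinarith
  have hPr : Pr V := (mem_filter.1 hV).2
  obtain ⟨i₀, hi₀⟩ := hPr ()
  refine ⟨univ.filter (fun i => V i = Sum.inr ()), ⟨i₀, mem_filter.2 ⟨mem_univ _, hi₀⟩⟩, ?_⟩
  obtain ⟨s, hs⟩ := sum_line V g'
  refine hVμ.trans ?_
  have h7 : L V ⊆ (fun x => x + s) ⁻¹' {x | x ∈ A ∧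
      ∀ j, x + ∑ i ∈ univ.filter (fun i => V i = Sum.inr ()), g i j ∈ A} := by
    intro x hx
    rw [hL] at hx
    simp only [Set.mem_ofPred_eq] at hx
    have h8 : ∀ t, x + s + ∑ i ∈ univ.filter (fun i => V i = Sum.inr ()), g' i t ∈ A := by
      intro t
      have h6 := hx t
      rw [hv] at h6
      simp only at h6
      rw [hs t] at h6
      have h7 : x + s + ∑ i ∈ univ.filter (fun i => V i = Sum.inr ()), g' i t =
          x + (∑ i ∈ univ.filter (fun i => V i = Sum.inr ()), g' i t + s) := by ring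
      rw [h7]
      exact h6
    refine ⟨?_, fun j => ?_⟩
    · have h9 := h8 0
      rw [hg'] at h9
      simp only [Fin.cons_zero, sum_const_zero, add_zero] at h9
      exact h9
    · have h9 := h8 j.succ
      rw [hg'] at h9
      simp only [Fin.cons_succ] at h9
      exact h9
  exact (measure_mono h7).trans (measure_preimage_add_right volume s _).le

end Pool.Agent.V11270.HP
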