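import Mathlib
import Pool.Agent.V11270.HP.FK

set_option autoImplicit false

/-!
# The IP Szemeredi theorem for dense subsets of boxes
-/

namespace Pool.Agent.V11270.HP

open Finset

/-- the IP Szemeredi theorem with many translates, in boxes -/
theorem box (k l : ℕ) (δ : ℝ) (hδ : 0 < δ) : ∃ (r : ℕ) (η : ℝ), 0 < η ∧
    ∀ N : ℕ, 0 < N → ∀ G : Set (Fin k → ℤ), (∀ d ∈ G, ∀ m, 0 ≤ d m ∧ d m < N) →
      δ * (N : ℝ) ^ k ≤ (G.ncard : ℝ) → ∀ g : Fin r → Fin l → Fin k → ℤ,
      (∀ j m, ∑ i, |g i j m| ≤ N) →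
      ∃ I : Finset (Fin r), I.Nonempty ∧
        η * (N : ℝ) ^ k ≤ (Set.ncard {d : Fin k → ℤ | d ∈ G ∧ ∀ j, d + ∑ i ∈ I, g i j ∈ G} : ℝ) := by
  classical
  obtain ⟨r, η, hη, hFK⟩ := fk_fin l (δ / 2 ^ k) (by positivity)
  refine ⟨r, η * 2 ^ k, by positivity, ?_⟩
  intro N hN G hG hGc g hg
  haveI : NeZero (2 * N) := ⟨by omega⟩
  obtain ⟨φ, hφ⟩ : ∃ φ : (Fin k → ℤ) → (Fin k → ZMod (2 * N)), φ = fun d m => (d m : ZMod (2 * N)) :=
    ⟨_, rfl⟩
  -- two vectors with the same image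
  have hinj : ∀ a b : ℤ, -(2 * N : ℤ) < a - b → a - b < 2 * N →
      ((a : ZMod (2 * N)) = (b : ZMod (2 * N))) → a = b := by
    intro a b h1 h2 h3
    rw [ZMod.intCast_eq_intCast_iff_dvd_sub] at h3
    obtain ⟨q, hq⟩ := h3
    have hq' : b - a = (2 * (N : ℤ)) * q := by exact_mod_cast hq
    have h4 : q < 1 := by
      by_contra hc
      push Not at hc
      nlinarith
    have h5 : -1 < q := by
      by_contra hc
      push Not at hc
      nlinarith
    have h6 : q = 0 := by omega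
    rw [h6] at hq'
    omega
  have hcard : (Nat.card (Fin k → ZMod (2 * N)) : ℝ) = (2 * N : ℝ) ^ k := by
    rw [Nat.card_eq_fintype_card, Fintype.card_fun, ZMod.card, Fintype.card_fin]
    push_cast
    rfl
  have hinjG : Set.InjOn φ G := by
    intro a ha b hb hab
    funext m
    have h1 := hG a ha m
    have h2 := hG b hb m
    refine hinj _ _ (by omega) (by omega) ?_
    have h3 := congrFun hab m
    rw [hφ] at h3
    exact h3
  have hA : δ / 2 ^ k * (Nat.card (Fin k → ZMod (2 * N)) : ℝ) ≤ ((φ '' G).ncard : ℝ) := by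
    rw [Set.ncard_image_of_injOn hinjG, hcard, mul_pow]
    have h1 : δ / 2 ^ k * (2 ^ k * (N : ℝ) ^ k) = δ * (N : ℝ) ^ k := by
      field_simp
    rw [h1]
    exact hGc
  obtain ⟨I, hI, hIc⟩ := hFK (Fin k → ZMod (2 * N)) (φ '' G) hA
    (fun i => Fin.cons 0 fun j => φ (g i j))
  refine ⟨I, hI, ?_⟩
  have hN0 : (0 : ℝ) < N := by exact_mod_cast hN
  rw [hcard, mul_pow, ← mul_assoc] at hIc
  refine hIc.trans ?_
  have hGfin : G.Finite := by
    have h1 : (0 : ℝ) < G.ncard := lt_of_lt_of_le (by positivity) hGc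
    have h2 : 0 < G.ncard := by exact_mod_cast h1
    exact Set.finite_of_ncard_pos h2
  have hfin : {d : Fin k → ℤ | d ∈ G ∧ ∀ j, d + ∑ i ∈ I, g i j ∈ G}.Finite :=
    hGfin.subset fun d hd => hd.1
  have hsub : {x : Fin k → ZMod (2 * N) | ∀ j : Fin (l + 1), x + ∑ i ∈ I,
      (Fin.cons 0 (fun j => φ (g i j)) : Fin (l + 1) → Fin k → ZMod (2 * N)) j ∈ φ '' G} ⊆
      φ '' {d : Fin k → ℤ | d ∈ G ∧ ∀ j, d + ∑ i ∈ I, g i j ∈ G} := by
    intro x hx
    have h0 := hx 0
    simp only [Fin.cons_zero, sum_const_zero, add_zero] at h0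
    obtain ⟨d, hd, hdx⟩ := h0
    refine ⟨d, ⟨hd, fun j => ?_⟩, hdx⟩
    have h1 := hx j.succ
    simp only [Fin.cons_succ] at h1
    obtain ⟨e, he, hex⟩ := h1
    have h2 : e = d + ∑ i ∈ I, g i j := by
      funext m
      have h3 := congrFun hex m
      rw [← hdx, hφ] at h3
      simp only [Pi.add_apply, Finset.sum_apply] at h3 ⊢
      have h4 : |∑ i ∈ I, g i j m| ≤ N := by
        refine (abs_sum_le_sum_abs _ _).trans ((sum_le_sum_of_subset_of_nonneg (subset_univ I)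
          fun i _ _ => abs_nonneg _).trans (hg j m))
      have h5 := abs_le.1 h4
      have h6 := hG e he m
      have h7 := hG d hd m
      refine hinj _ _ (by omega) (by omega) ?_
      push_cast
      exact h3
    rw [← h2]
    exact he
  have h8 := Set.ncard_le_ncard hsub (hfin.image φ)
  have h9 := Set.ncard_image_le (f := φ) hfin
  exact_mod_cast h8.trans h9

end Pool.Agent.V11270.HP
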