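import Mathlib
import Pool.Agent.V11270.HP.Box
import Pool.Agent.H312R2.RG.Fin
import Pool.Agent.H312R2.RG.C4

set_option autoImplicit false

/-!
# Vectors of consecutive prime gaps and the IP Szemeredi theorem
-/

namespace Pool.Agent.V11270.HP

open Finset
open Pool.Agent.H312R2 (P pat P_prime P_mono P_count P_add_sub realises_eq mem_base pat_card)

/-- the vector of the `k` consecutive prime gaps from the prime with index `n` on -/
noncomputable def gapv (k n : ℕ) : Fin k → ℤ :=
  fun m => (Nat.nth Nat.Prime (n + m + 1) : ℤ) - Nat.nth Nat.Prime (n + m)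

/-- `d` is the vector of the next `k` prime gaps for at least `x^(4/5)` primes up to `x` -/
def Often (k x : ℕ) (d : Fin k → ℤ) : Prop :=
  (x : ℝ) ^ (4 / 5 : ℝ) ≤ (Set.ncard {n : ℕ | Nat.nth Nat.Prime n ≤ x ∧ gapv k n = d} : ℝ)

theorem range_pat (k m : ℕ) : Set.range (fun i : Fin (k + 1) => P (m + i) - P m) =
    (pat (k + 1) m : Set ℕ) := by
  ext y
  unfold pat
  simp only [Set.mem_range, coe_image, coe_range, Set.mem_image, Set.mem_Iio]
  constructor
  · rintro ⟨i, hi⟩
    exact ⟨i, i.2, hi⟩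
  · rintro ⟨i, hi, h⟩
    exact ⟨⟨i, hi⟩, h⟩

theorem mono_pat (k m : ℕ) : StrictMono (fun i : Fin (k + 1) => P (m + i) - P m) := by
  intro i j hij
  have h1 : P (m + i) < P (m + j) := P_mono (by
    have : (i : ℕ) < j := hij
    omega)
  have h2 : P m ≤ P (m + i) := P_mono.monotone (by omega)
  change P (m + i) - P m < P (m + j) - P m
  omega

theorem gapv_of_pat {k m m' : ℕ} (h : pat (k + 1) m = pat (k + 1) m') : gapv k m = gapv k m' := by
  have h1 : (fun i : Fin (k + 1) => P (m + i) - P m) = (fun i : Fin (k + 1) => P (m' + i) - P m') := by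
    rw [← StrictMono.range_inj (mono_pat k m) (mono_pat k m'), range_pat, range_pat, h]
  funext i
  have h2 := congrFun h1 i.succ
  have h3 := congrFun h1 i.castSucc
  simp only [Fin.val_succ, Fin.val_castSucc] at h2 h3
  have a1 := P_add_sub m (i + 1)
  have a2 := P_add_sub m i
  have a3 := P_add_sub m' (i + 1)
  have a4 := P_add_sub m' i
  unfold gapv
  change (P (m + i + 1) : ℤ) - P (m + i) = P (m' + i + 1) - P (m' + i)
  rw [add_assoc, add_assoc]
  omega

theorem pat_of_gapv {k m m' : ℕ} (h : gapv k m = gapv k m') : pat (k + 1) m = pat (k + 1) m' := by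
  have h1 : ∀ i : ℕ, i ≤ k → P (m + i) - P m = P (m' + i) - P m' := by
    intro i
    induction i with
    | zero => intro _; simp
    | succ i ih =>
      intro hi
      have h2 := ih (by omega)
      have h3 := congrFun h ⟨i, by omega⟩
      unfold gapv at h3
      change (P (m + i + 1) : ℤ) - P (m + i) = P (m' + i + 1) - P (m' + i) at h3
      rw [add_assoc, add_assoc] at h3
      have a1 := P_add_sub m (i + 1)
      have a2 := P_add_sub m i
      have a3 := P_add_sub m' (i + 1)
      have a4 := P_add_sub m' i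
      omega
  unfold pat
  refine image_congr fun i hi => ?_
  simp only [coe_range, Set.mem_Iio] at hi
  exact h1 i (by omega)

theorem gapv_pos (k n : ℕ) (m : Fin k) : 1 ≤ gapv k n m := by
  unfold gapv
  change 1 ≤ (P (n + m + 1) : ℤ) - P (n + m)
  have : P (n + m) < P (n + m + 1) := P_mono (by omega)
  omega

/-- the vectors which occur often, with entries up to `D` -/
def OftenD (k x : ℕ) (D : ℝ) : Set (Fin k → ℤ) :=
  {d | (∀ m, 1 ≤ d m ∧ (d m : ℝ) ≤ D) ∧ Often k x d}

theorem oftenD_finite (k x : ℕ) (D : ℝ) : (OftenD k x D).Finite := by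
  refine (Set.Finite.pi (t := fun _ : Fin k => (Set.Icc (1 : ℤ) ⌊D⌋)) fun _ => Set.finite_Icc _ _).subset ?_
  intro d hd m _
  exact ⟨(hd.1 m).1, Int.le_floor.2 (hd.1 m).2⟩

theorem card_freq_le (k x : ℕ) (hx : 1 ≤ x) (D : ℝ) (hD : 0 ≤ D) :
    (Pool.Agent.H312R2.RG.FreqD (k + 1) D x).card ≤ (OftenD k x D).ncard := by
  classical
  have key : ∀ H ∈ Pool.Agent.H312R2.RG.FreqD (k + 1) D x, ∃ m, pat (k + 1) m = H ∧
      gapv k m ∈ OftenD k x D := by
    intro H hH
    unfold Pool.Agent.H312R2.RG.FreqD at hH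
    rw [Finset.mem_filter, mem_base] at hH
    obtain ⟨⟨⟨h1, h2⟩, h3⟩, h4, h5⟩ := hH
    have hx0 : (0 : ℝ) < x := by exact_mod_cast hx
    have h6 : (0 : ℝ) < (((Icc 1 x).filter (fun n => Pool.Agent.H312R2.Realises H n)).card : ℝ) :=
      lt_of_lt_of_le (by positivity) h5
    have h7 : 0 < ((Icc 1 x).filter (fun n => Pool.Agent.H312R2.Realises H n)).card := by
      exact_mod_cast h6
    obtain ⟨n, hn⟩ := card_pos.1 h7
    rw [mem_filter] at hn
    obtain ⟨hnp, hHn⟩ := realises_eq (by omega) h2 h3 hn.2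
    refine ⟨_, hHn.symm, ⟨fun i => ⟨gapv_pos _ _ _, ?_⟩, ?_⟩⟩
    · have h8 : P (Nat.count Nat.Prime n + (i + 1)) - P (Nat.count Nat.Prime n) ∈ H := by
        rw [hHn]
        unfold pat
        have hi := i.2
        exact mem_image.2 ⟨i + 1, mem_range.2 (by omega), rfl⟩
      have h9 := mem_range.1 (h1 h8)
      have h10 : ((P (Nat.count Nat.Prime n + (i + 1)) - P (Nat.count Nat.Prime n) : ℕ) : ℝ) ≤ D := by
        refine le_trans ?_ (Nat.floor_le hD)
        exact_mod_cast Nat.lt_succ_iff.1 h9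
      refine le_trans ?_ h10
      unfold gapv
      have h11 : P (Nat.count Nat.Prime n) ≤ P (Nat.count Nat.Prime n + i) := P_mono.monotone (by omega)
      have h12 : P (Nat.count Nat.Prime n) ≤ P (Nat.count Nat.Prime n + (i + 1)) :=
        P_mono.monotone (by omega)
      rw [Nat.cast_sub h12]
      push_cast
      change (P (Nat.count Nat.Prime n + i + 1) : ℝ) - P (Nat.count Nat.Prime n + i) ≤ _
      rw [add_assoc]
      have h13 : (P (Nat.count Nat.Prime n) : ℝ) ≤ P (Nat.count Nat.Prime n + i) := by exact_mod_cast h11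
      linarith
    · unfold Often
      refine h5.trans ?_
      have hfin : {a : ℕ | Nat.nth Nat.Prime a ≤ x ∧ gapv k a = gapv k (Nat.count Nat.Prime n)}.Finite := by
        refine (Set.finite_Iic x).subset fun a ha => ?_
        have : a + 2 ≤ Nat.nth Nat.Prime a := Nat.add_two_le_nth_prime a
        have h := ha.1
        simp only [Set.mem_Iic]
        omega
      have h8 : (((Icc 1 x).filter (fun n => Pool.Agent.H312R2.Realises H n)).image
          (Nat.count Nat.Prime) : Set ℕ) ⊆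
          {a : ℕ | Nat.nth Nat.Prime a ≤ x ∧ gapv k a = gapv k (Nat.count Nat.Prime n)} := by
        intro a ha
        rw [mem_coe, mem_image] at ha
        obtain ⟨b, hb, rfl⟩ := ha
        rw [mem_filter] at hb
        obtain ⟨hbp, hHb⟩ := realises_eq (by omega) h2 h3 hb.2
        refine ⟨?_, ?_⟩
        · have : P (Nat.count Nat.Prime b) = b := P_count hbp
          change P (Nat.count Nat.Prime b) ≤ x
          rw [this]
          exact (mem_Icc.1 hb.1).2
        · exact gapv_of_pat (by rw [← hHb, ← hHn])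
      have h9 := Set.ncard_le_ncard h8 hfin
      rw [Set.ncard_coe_finset, card_image_of_injOn] at h9
      · exact_mod_cast h9
      · intro a ha b hb hab
        rw [mem_coe, mem_filter] at ha hb
        obtain ⟨hap, _⟩ := realises_eq (by omega) h2 h3 ha.2
        obtain ⟨hbp, _⟩ := realises_eq (by omega) h2 h3 hb.2
        rw [← P_count hap, ← P_count hbp, hab]
  choose! M hM1 hM2 using key
  have h1 : ((Pool.Agent.H312R2.RG.FreqD (k + 1) D x).image (fun H => gapv k (M H)) :
      Set (Fin k → ℤ)) ⊆ OftenD k x D := by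
    intro d hd
    rw [mem_coe, mem_image] at hd
    obtain ⟨H, hH, rfl⟩ := hd
    exact hM2 H hH
  have h2 := Set.ncard_le_ncard h1 (oftenD_finite k x D)
  rw [Set.ncard_coe_finset, card_image_of_injOn] at h2
  · exact h2
  · intro H hH H' hH' hHH
    rw [← hM1 H (mem_coe.1 hH), ← hM1 H' (mem_coe.1 hH')]
    exact pat_of_gapv hHH

/-- **The IP Szemeredi theorem for vectors of consecutive prime gaps.** -/
theorem gap_main (k l : ℕ) (hk : 1 ≤ k) : ∃ (r : ℕ) (c : ℝ), 0 < c ∧ ∃ x₀ : ℕ, ∀ x : ℕ, x₀ ≤ x →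
    ∀ D : ℝ, Real.log x ≤ D →
    D ≤ c * (Real.log x * (Real.log (Real.log x)) ^ 2 *
        Real.log (Real.log (Real.log (Real.log x))) / (Real.log (Real.log (Real.log x))) ^ 2) →
    ∀ g : Fin r → Fin l → Fin k → ℤ, (∀ j m, ((∑ i, |g i j m| : ℤ) : ℝ) ≤ D) →
    ∃ I : Finset (Fin r), I.Nonempty ∧ ∃ S : Finset (Fin k → ℤ), c * D ^ k ≤ S.card ∧
      ∀ d ∈ S, d ∈ OftenD k x D ∧ ∀ j, d + ∑ i ∈ I, g i j ∈ OftenD k x D := by
  classical
  obtain ⟨c, hc, x0, hx0⟩ := Pool.Agent.H312R2.RG.patterns_of Pool.Agent.H312R2.RG.mtrg (k + 1) (by omega)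
  obtain ⟨r, η, hη, hbox⟩ := box k l (c / 2 ^ k) (by positivity)
  refine ⟨r, min c η, lt_min hc hη, max x0 3, fun x hx D hD1 hD2 g hg => ?_⟩
  have hx3 : 3 ≤ x := (le_max_right _ _).trans hx
  have hlog : 1 ≤ Real.log x := by
    rw [Real.le_log_iff_exp_le (by positivity)]
    have h1 : (3 : ℝ) ≤ x := by exact_mod_cast hx3
    linarith [Real.exp_one_lt_d9]
  have hD : 1 ≤ D := hlog.trans hD1
  have hff : 0 ≤ (Real.log x * (Real.log (Real.log x)) ^ 2 *
        Real.log (Real.log (Real.log (Real.log x))) / (Real.log (Real.log (Real.log x))) ^ 2) := by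
    by_contra hcon
    push Not at hcon
    have h1 : min c η * (Real.log x * (Real.log (Real.log x)) ^ 2 *
        Real.log (Real.log (Real.log (Real.log x))) / (Real.log (Real.log (Real.log x))) ^ 2) < 0 :=
      mul_neg_of_pos_of_neg (lt_min hc hη) hcon
    linarith
  have hD2' : D ≤ c * (Real.log x * (Real.log (Real.log x)) ^ 2 *
        Real.log (Real.log (Real.log (Real.log x))) / (Real.log (Real.log (Real.log x))) ^ 2) :=
    hD2.trans (mul_le_mul_of_nonneg_right (min_le_left _ _) hff)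
  have h1 := hx0 x ((le_max_left _ _).trans hx) D hD1 hD2'
  rw [Nat.add_sub_cancel] at h1
  have h2 := card_freq_le k x (by omega) D (by linarith)
  -- the box
  obtain ⟨N, hN⟩ : ∃ N : ℕ, N = ⌊D⌋₊ + 1 := ⟨_, rfl⟩
  have hND : D < N := by
    rw [hN]
    push_cast
    exact Nat.lt_floor_add_one D
  have hN2 : (N : ℝ) ≤ 2 * D := by
    rw [hN]
    push_cast
    have := Nat.floor_le (show (0 : ℝ) ≤ D by linarith)
    linarith
  have hN0 : 0 < N := by omega
  have h3 : c / 2 ^ k * (N : ℝ) ^ k ≤ ((OftenD k x D).ncard : ℝ) := by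
    have h4 : (N : ℝ) ^ k ≤ (2 * D) ^ k := pow_le_pow_left₀ (by positivity) hN2 k
    calc c / 2 ^ k * (N : ℝ) ^ k ≤ c / 2 ^ k * (2 * D) ^ k :=
          mul_le_mul_of_nonneg_left h4 (by positivity)
      _ = c * D ^ k := by rw [mul_pow]; field_simp
      _ ≤ _ := h1.trans (by exact_mod_cast h2)
  obtain ⟨I, hI, hI2⟩ := hbox N hN0 (OftenD k x D) (by
    intro d hd m
    have h5 := hd.1 m
    refine ⟨by omega, ?_⟩
    have h6 : (d m : ℝ) < N := lt_of_le_of_lt h5.2 hND
    exact_mod_cast h6) h3 g (by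
    intro j m
    have h5 := (hg j m).trans hND.le
    exact_mod_cast h5)
  refine ⟨I, hI, ?_⟩
  have hfin : {d : Fin k → ℤ | d ∈ OftenD k x D ∧ ∀ j, d + ∑ i ∈ I, g i j ∈ OftenD k x D}.Finite :=
    (oftenD_finite k x D).subset fun d hd => hd.1
  refine ⟨hfin.toFinset, ?_, fun d hd => ?_⟩
  · rw [← Set.ncard_eq_toFinset_card _ hfin]
    refine le_trans ?_ hI2
    have h5 : D ^ k ≤ (N : ℝ) ^ k := pow_le_pow_left₀ (by linarith) hND.le k
    calc min c η * D ^ k ≤ η * D ^ k := mul_le_mul_of_nonneg_right (min_le_right _ _) (by positivity)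
      _ ≤ η * (N : ℝ) ^ k := mul_le_mul_of_nonneg_left h5 hη.le
  · rw [Set.Finite.mem_toFinset] at hd
    exact hd

end Pool.Agent.V11270.HP
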